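import Pool.Agent.Helper24.EG.Goals

/-!
# Project EG (MP_98cfca_co, Q2): packet LC (local Cauchy estimate for Euler derivatives)
-/

set_option autoImplicit false

namespace Pool.Agent.Helper18.EG

open Metric Pool.Agent.Helper52 Pool.Agent.Helper24.EG

theorem gLC : G_LC := by
  intro F hF z δ B i hδ hz hB
  rcases Nat.eq_zero_or_pos i with rfl | hi
  · simpa using hB z (by simp [hδ.le])
  have hi' : (0 : ℝ) < i := by exact_mod_cast hi
  set h := δ / i with hh
  have hh0 : 0 < h := div_pos hδ hi'
  have key : ∀ m : ℕ, m ≤ i → ∀ w : ℂ, ‖w - z‖ ≤ δ - m * h →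
      ‖ev w ((theta ℂ)^[m] F)‖ ≤ ((i : ℝ) / δ) ^ m * B := by
    intro m
    induction m with
    | zero =>
      intro _ w hw
      have := hB w (by simpa using hw)
      simpa using this
    | succ m ih =>
      intro hm w hw
      push_cast at hw
      have hm0 : (0 : ℝ) ≤ m := Nat.cast_nonneg m
      have hmh : 0 ≤ (m : ℝ) * h := mul_nonneg hm0 hh0.le
      have hw1 : ‖w‖ < 1 := by
        have h1 : ‖w‖ ≤ ‖z‖ + ‖w - z‖ := by
          have := norm_add_le z (w - z)
          rwa [add_sub_cancel] at this
        nlinarith
      rw [Function.iterate_succ_apply']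
      have hgood := theta_iter_mem_Good hF m
      rw [ev_theta hgood hw1, norm_mul]
      have hball : closedBall w h ⊆ ball (0 : ℂ) 1 := by
        intro u hu
        rw [mem_closedBall, dist_eq_norm] at hu
        rw [mem_ball_zero_iff]
        have h1 : ‖u‖ ≤ ‖z‖ + ‖w - z‖ + ‖u - w‖ := by
          have h2 := norm_add_le (z + (w - z)) (u - w)
          have h3 := norm_add_le z (w - z)
          rw [add_sub_cancel] at h2 h3
          rw [add_sub_cancel] at h2
          linarith
        nlinarith
      have h1 : ‖deriv (fun u => ev u ((theta ℂ)^[m] F)) w‖ ≤ ((i : ℝ) / δ) ^ m * B / h := by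
        refine Complex.norm_deriv_le_of_forall_mem_sphere_norm_le hh0 ?_ ?_
        · exact DifferentiableOn.diffContOnCl
            ((ev_differentiableOn hgood).mono (closure_ball_subset_closedBall.trans hball))
        · intro u hu
          rw [mem_sphere, dist_eq_norm] at hu
          refine ih (by omega) u ?_
          have h2 : ‖u - z‖ ≤ ‖u - w‖ + ‖w - z‖ := by
            have := norm_add_le (u - w) (w - z)
            rwa [sub_add_sub_cancel] at this
          linarith
      calc ‖w‖ * ‖deriv (fun u => ev u ((theta ℂ)^[m] F)) w‖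
          ≤ 1 * (((i : ℝ) / δ) ^ m * B / h) :=
            mul_le_mul hw1.le h1 (norm_nonneg _) zero_le_one
        _ = ((i : ℝ) / δ) ^ (m + 1) * B := by
            rw [hh, pow_succ]
            field_simp
  refine key i le_rfl z ?_
  rw [sub_self, norm_zero, hh, mul_div_cancel₀ _ hi'.ne', sub_self]

end Pool.Agent.Helper18.EG
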